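import Pool.Agent.Helper57.IA.St

/-!
# Project IA, part P: module DEV (union bound for the structure `Dev`)
-/

set_option autoImplicit false

namespace Pool.Agent.Helper2.IA57

open Finset Pool.Agent.Helper93.IA Pool.Agent.Helper57.IA Pool.Agent.Helper38.IA

private theorem single (hB : StBRN) (hC : StCNT) {ι Z : Type} [Fintype ι] [DecidableEq ι]
    (p : ι → ℝ) (i1 i2 : Z → ι) (S : Finset Z) (l t : ℝ) (n : ℕ)
    (hp : ∀ i, 0 ≤ p i ∧ p i ≤ 1) (h1 : Function.Injective i1) (h2 : Function.Injective i2)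
    (h : (∀ z, i1 z = i2 z) ∨ ∀ z z', i1 z ≠ i2 z') (hl0 : 0 ≤ l) (hl1 : l ≤ 1)
    (hS : S.card ≤ n) :
    Pr (wB p) (fun σ => t < |cnt i1 i2 S σ - mean p i1 i2 S|) ≤
      2 * Real.exp (-l * t + 2 * l ^ 2 * n) := by
  refine (hC hB ι Z p i1 i2 S l t hp h1 h2 h hl0 hl1).trans ?_
  have hS' : (S.card : ℝ) ≤ n := by exact_mod_cast hS
  have hl2 : 0 ≤ 2 * l ^ 2 := by positivity
  have := mul_le_mul_of_nonneg_left hS' hl2
  have h3 : Real.exp (-l * t + 2 * l ^ 2 * S.card) ≤ Real.exp (-l * t + 2 * l ^ 2 * n) :=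
    Real.exp_le_exp.mpr (by linarith)
  linarith

private theorem same (hB : StBRN) (hC : StCNT) {ι Z : Type} [Fintype ι] [DecidableEq ι]
    (p : ι → ℝ) (i : Z → ι) (S : Finset Z) (l t : ℝ) (n : ℕ)
    (hp : ∀ i, 0 ≤ p i ∧ p i ≤ 1) (h1 : Function.Injective i) (hl0 : 0 ≤ l) (hl1 : l ≤ 1)
    (hS : S.card ≤ n) :
    Pr (wB p) (fun σ => t < |((S.filter fun z => σ (i z) = true).card : ℝ) -
      ∑ z ∈ S, p (i z)|) ≤ 2 * Real.exp (-l * t + 2 * l ^ 2 * n) := by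
  have h := single hB hC p i i S l t n hp h1 h1 (Or.inl fun _ => rfl) hl0 hl1 hS
  have e1 : ∀ σ : ι → Bool, cnt i i S σ = ((S.filter fun z => σ (i z) = true).card : ℝ) := by
    intro σ
    unfold cnt
    congr 2
    exact filter_congr fun z _ => by simp
  have e2 : mean p i i S = ∑ z ∈ S, p (i z) := by
    unfold mean
    exact sum_congr rfl fun z _ => if_pos rfl
  simp only [e1, e2] at h
  exact h

private theorem two (hB : StBRN) (hC : StCNT) {ι Z : Type} [Fintype ι] [DecidableEq ι]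
    (p : ι → ℝ) (i1 i2 : Z → ι) (S : Finset Z) (l t : ℝ) (n : ℕ)
    (hp : ∀ i, 0 ≤ p i ∧ p i ≤ 1) (h1 : Function.Injective i1) (h2 : Function.Injective i2)
    (h : ∀ z z', i1 z ≠ i2 z') (hl0 : 0 ≤ l) (hl1 : l ≤ 1)
    (hS : S.card ≤ n) :
    Pr (wB p) (fun σ => t < |((S.filter fun z => σ (i1 z) = true ∧ σ (i2 z) = true).card : ℝ) -
      ∑ z ∈ S, p (i1 z) * p (i2 z)|) ≤ 2 * Real.exp (-l * t + 2 * l ^ 2 * n) := by
  have hh := single hB hC p i1 i2 S l t n hp h1 h2 (Or.inr h) hl0 hl1 hS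
  have e2 : mean p i1 i2 S = ∑ z ∈ S, p (i1 z) * p (i2 z) := by
    unfold mean
    exact sum_congr rfl fun z _ => if_neg (h z z)
  simp only [e2] at hh
  exact hh

private theorem mem_qs {X Y ι : Type} [Fintype X] [Fintype Y] (j : X × Y → ι) (σ : ι → Bool)
    (x : X) (y : Y) : (x, y) ∈ qs j σ ↔ σ (j (x, y)) = true := by
  simp [qs]

private theorem inj1 {X Y ι : Type} (j : X × Y → ι) (h : Function.Injective j) (x : X) :
    Function.Injective fun y => j (x, y) := by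
  intro y y' e
  have := h e
  simpa using this

private theorem inj2 {X Y ι : Type} (j : X × Y → ι) (h : Function.Injective j) (y : Y) :
    Function.Injective fun x => j (x, y) := by
  intro x x' e
  have := h e
  simpa using this

/-- Union bound over a family of `m ≤ n ^ 2` events. -/
private theorem fam {ι J : Type} [Fintype ι] [DecidableEq ι] [Fintype J] (p : ι → ℝ)
    (hp : ∀ i, 0 ≤ p i ∧ p i ≤ 1) (E : J → (ι → Bool) → Prop) (q : ℝ) (n : ℕ) (hq0 : 0 ≤ q)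
    (hJ : Fintype.card J ≤ n ^ 2) (hq : ∀ j, Pr (wB p) (E j) ≤ q) :
    Pr (wB p) (fun σ => ∃ j, E j σ) ≤ (n : ℝ) ^ 2 * q := by
  refine (pr_exists_le (wB p) (wB_nonneg p hp) E q hq).trans ?_
  refine mul_le_mul_of_nonneg_right ?_ hq0
  exact_mod_cast hJ

private theorem le_sq (n : ℕ) : n ≤ n ^ 2 := by
  rcases Nat.eq_zero_or_pos n with h | h
  · simp [h]
  · nlinarith

private theorem pr_false {ι : Type} [Fintype ι] [DecidableEq ι] (p : ι → ℝ)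
    (E : (ι → Bool) → Prop) (hE : ∀ σ, ¬ E σ) : Pr (wB p) E = 0 := by
  classical
  unfold Pr
  have : (fun σ => if E σ then (1 : ℝ) else 0) = fun _ => 0 := by
    funext σ
    rw [if_neg (hE σ)]
  rw [this]
  exact ex_const (wB p) (wB_sum p) 0

section fields

variable {α β γ ι : Type} [Fintype α] [Fintype β] [Fintype γ] [DecidableEq α]
  [DecidableEq β] [DecidableEq γ] [Fintype ι] [DecidableEq ι]

/-- degree in the first coordinate -/
private theorem f_d1 (hB : StBRN) (hC : StCNT) (j : α × β → ι) (p : ι → ℝ) (n : ℕ) (l t : ℝ)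
    (hα : Fintype.card α = n) (hβ : Fintype.card β = n) (hj : Function.Injective j)
    (hp : ∀ i, 0 ≤ p i ∧ p i ≤ 1) (hl0 : 0 ≤ l) (hl1 : l ≤ 1) :
    Pr (wB p) (fun σ => ∃ a, t < |(d1 (qs j σ) a : ℝ) - ∑ b, pe p j a b|) ≤
      (n : ℝ) ^ 2 * (2 * Real.exp (-l * t + 2 * l ^ 2 * n)) := by
  refine fam p hp _ _ n (by positivity) (hα ▸ le_sq _) fun a => ?_
  have h := same hB hC p (fun b => j (a, b)) univ l t n hp (inj1 j hj a) hl0 hl1
    (by rw [card_univ, hβ])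
  simp only [d1_eq, mem_qs, pe]
  exact h

/-- degree in the second coordinate -/
private theorem f_d2 (hB : StBRN) (hC : StCNT) (j : γ × α → ι) (p : ι → ℝ) (n : ℕ) (l t : ℝ)
    (hα : Fintype.card α = n) (hγ : Fintype.card γ = n) (hj : Function.Injective j)
    (hp : ∀ i, 0 ≤ p i ∧ p i ≤ 1) (hl0 : 0 ≤ l) (hl1 : l ≤ 1) :
    Pr (wB p) (fun σ => ∃ a, t < |(d2 (qs j σ) a : ℝ) - ∑ c, pe p j c a|) ≤
      (n : ℝ) ^ 2 * (2 * Real.exp (-l * t + 2 * l ^ 2 * n)) := by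
  refine fam p hp _ _ n (by positivity) (hα ▸ le_sq _) fun a => ?_
  have h := same hB hC p (fun c => j (c, a)) univ l t n hp (inj2 j hj a) hl0 hl1
    (by rw [card_univ, hγ])
  simp only [d2_eq, mem_qs, pe]
  exact h

private theorem f_nC (hB : StBRN) (hC : StCNT) (j : γ × α → ι) (p : ι → ℝ) (n : ℕ) (l t : ℝ)
    (B : Finset (β × γ)) (U : Finset γ)
    (hα : Fintype.card α = n) (hβ : Fintype.card β = n) (hγ : Fintype.card γ = n)
    (hj : Function.Injective j)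
    (hp : ∀ i, 0 ≤ p i ∧ p i ≤ 1) (hl0 : 0 ≤ l) (hl1 : l ≤ 1) :
    Pr (wB p) (fun σ => ∃ x : α × β, t < |((U.filter fun c => (c, x.1) ∈ qs j σ ∧
      (x.2, c) ∉ B).card : ℝ) - ∑ c ∈ U.filter (fun c => (x.2, c) ∉ B), pe p j c x.1|) ≤
      (n : ℝ) ^ 2 * (2 * Real.exp (-l * t + 2 * l ^ 2 * n)) := by
  refine fam p hp _ _ n (by positivity) ?_ fun x => ?_
  · rw [Fintype.card_prod, hα, hβ, sq]
  have h := same hB hC p (fun c => j (c, x.1)) (U.filter fun c => (x.2, c) ∉ B) l t n hp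
    (inj2 j hj x.1) hl0 hl1 (by rw [← hγ]; exact card_le_univ _)
  simp only [filter_filter] at h
  have e : ∀ σ : ι → Bool, (U.filter fun c => (c, x.1) ∈ qs j σ ∧ (x.2, c) ∉ B) =
      U.filter fun c => (x.2, c) ∉ B ∧ σ (j (c, x.1)) = true := fun σ =>
    filter_congr fun c _ => by rw [mem_qs, and_comm]
  simp only [e, pe]
  exact h

private theorem f_nA (hB : StBRN) (hC : StCNT) (j : α × β → ι) (p : ι → ℝ) (n : ℕ) (l t : ℝ)
    (B : Finset (β × γ)) (U : Finset β)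
    (hα : Fintype.card α = n) (hβ : Fintype.card β = n) (hγ : Fintype.card γ = n)
    (hj : Function.Injective j)
    (hp : ∀ i, 0 ≤ p i ∧ p i ≤ 1) (hl0 : 0 ≤ l) (hl1 : l ≤ 1) :
    Pr (wB p) (fun σ => ∃ x : α × γ, t < |((U.filter fun b => (x.1, b) ∈ qs j σ ∧
      (b, x.2) ∉ B).card : ℝ) - ∑ b ∈ U.filter (fun b => (b, x.2) ∉ B), pe p j x.1 b|) ≤
      (n : ℝ) ^ 2 * (2 * Real.exp (-l * t + 2 * l ^ 2 * n)) := by
  refine fam p hp _ _ n (by positivity) ?_ fun x => ?_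
  · rw [Fintype.card_prod, hα, hγ, sq]
  have h := same hB hC p (fun b => j (x.1, b)) (U.filter fun b => (b, x.2) ∉ B) l t n hp
    (inj1 j hj x.1) hl0 hl1 (by rw [← hβ]; exact card_le_univ _)
  simp only [filter_filter] at h
  have e : ∀ σ : ι → Bool, (U.filter fun b => (x.1, b) ∈ qs j σ ∧ (b, x.2) ∉ B) =
      U.filter fun b => (b, x.2) ∉ B ∧ σ (j (x.1, b)) = true := fun σ =>
    filter_congr fun b _ => by rw [mem_qs, and_comm]
  simp only [e, pe]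
  exact h

private theorem f_wA (hB : StBRN) (hC : StCNT) (j : α × β → ι) (p : ι → ℝ) (n : ℕ) (l t : ℝ)
    (W : Finset β) (hα : Fintype.card α = n) (hβ : Fintype.card β = n)
    (hj : Function.Injective j)
    (hp : ∀ i, 0 ≤ p i ∧ p i ≤ 1) (hl0 : 0 ≤ l) (hl1 : l ≤ 1) :
    Pr (wB p) (fun σ => ∃ a, t < |((W.filter fun b => (a, b) ∈ qs j σ).card : ℝ) -
      ∑ b ∈ W, pe p j a b|) ≤
      (n : ℝ) ^ 2 * (2 * Real.exp (-l * t + 2 * l ^ 2 * n)) := by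
  refine fam p hp _ _ n (by positivity) (hα ▸ le_sq _) fun a => ?_
  have h := same hB hC p (fun b => j (a, b)) W l t n hp (inj1 j hj a) hl0 hl1
    (by rw [← hβ]; exact card_le_univ _)
  simp only [mem_qs, pe]
  exact h

private theorem f_wC (hB : StBRN) (hC : StCNT) (j : γ × α → ι) (p : ι → ℝ) (n : ℕ) (l t : ℝ)
    (W : Finset γ) (hα : Fintype.card α = n) (hγ : Fintype.card γ = n)
    (hj : Function.Injective j)
    (hp : ∀ i, 0 ≤ p i ∧ p i ≤ 1) (hl0 : 0 ≤ l) (hl1 : l ≤ 1) :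
    Pr (wB p) (fun σ => ∃ a, t < |((W.filter fun c => (c, a) ∈ qs j σ).card : ℝ) -
      ∑ c ∈ W, pe p j c a|) ≤
      (n : ℝ) ^ 2 * (2 * Real.exp (-l * t + 2 * l ^ 2 * n)) := by
  refine fam p hp _ _ n (by positivity) (hα ▸ le_sq _) fun a => ?_
  have h := same hB hC p (fun c => j (c, a)) W l t n hp (inj2 j hj a) hl0 hl1
    (by rw [← hγ]; exact card_le_univ _)
  simp only [mem_qs, pe]
  exact h

private theorem f_cA (hB : StBRN) (hC : StCNT) (j : α × β → ι) (p : ι → ℝ) (n : ℕ) (l t : ℝ)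
    (hα : Fintype.card α = n) (hβ : Fintype.card β = n) (hj : Function.Injective j)
    (hp : ∀ i, 0 ≤ p i ∧ p i ≤ 1) (hl0 : 0 ≤ l) (hl1 : l ≤ 1) :
    Pr (wB p) (fun σ => ∃ x : α × α, x.1 ≠ x.2 ∧ t < |((univ.filter fun b =>
      (x.1, b) ∈ qs j σ ∧ (x.2, b) ∈ qs j σ).card : ℝ) - ∑ b, pe p j x.1 b * pe p j x.2 b|) ≤
      (n : ℝ) ^ 2 * (2 * Real.exp (-l * t + 2 * l ^ 2 * n)) := by
  refine fam p hp _ _ n (by positivity) ?_ fun x => ?_
  · rw [Fintype.card_prod, hα, sq]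
  by_cases hx : x.1 = x.2
  · rw [pr_false p _ fun σ h => h.1 hx]
    positivity
  have h := two hB hC p (fun b => j (x.1, b)) (fun b => j (x.2, b)) univ l t n hp
    (inj1 j hj x.1) (inj1 j hj x.2)
    (fun b b' e => hx (congrArg Prod.fst (hj e))) hl0 hl1 (by rw [card_univ, hβ])
  refine (pr_mono (wB p) (wB_nonneg p hp) _ _ fun σ hσ => ?_).trans h
  have := hσ.2
  simp only [mem_qs, pe] at this
  exact this

private theorem f_cC (hB : StBRN) (hC : StCNT) (j : γ × α → ι) (p : ι → ℝ) (n : ℕ) (l t : ℝ)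
    (hα : Fintype.card α = n) (hγ : Fintype.card γ = n) (hj : Function.Injective j)
    (hp : ∀ i, 0 ≤ p i ∧ p i ≤ 1) (hl0 : 0 ≤ l) (hl1 : l ≤ 1) :
    Pr (wB p) (fun σ => ∃ x : α × α, x.1 ≠ x.2 ∧ t < |((univ.filter fun c =>
      (c, x.1) ∈ qs j σ ∧ (c, x.2) ∈ qs j σ).card : ℝ) - ∑ c, pe p j c x.1 * pe p j c x.2|) ≤
      (n : ℝ) ^ 2 * (2 * Real.exp (-l * t + 2 * l ^ 2 * n)) := by
  refine fam p hp _ _ n (by positivity) ?_ fun x => ?_
  · rw [Fintype.card_prod, hα, sq]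
  by_cases hx : x.1 = x.2
  · rw [pr_false p _ fun σ h => h.1 hx]
    positivity
  have h := two hB hC p (fun c => j (c, x.1)) (fun c => j (c, x.2)) univ l t n hp
    (inj2 j hj x.1) (inj2 j hj x.2)
    (fun b b' e => hx (congrArg Prod.snd (hj e))) hl0 hl1 (by rw [card_univ, hγ])
  refine (pr_mono (wB p) (wB_nonneg p hp) _ _ fun σ hσ => ?_).trans h
  have := hσ.2
  simp only [mem_qs, pe] at this
  exact this

private theorem f_cm (hB : StBRN) (hC : StCNT) (jB : β × γ → ι) (jC : γ × α → ι) (p : ι → ℝ)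
    (n : ℕ) (l t : ℝ) (hα : Fintype.card α = n) (hβ : Fintype.card β = n)
    (hγ : Fintype.card γ = n) (hjB : Function.Injective jB) (hjC : Function.Injective jC)
    (hBC : ∀ e e', jB e ≠ jC e')
    (hp : ∀ i, 0 ≤ p i ∧ p i ≤ 1) (hl0 : 0 ≤ l) (hl1 : l ≤ 1) :
    Pr (wB p) (fun σ => ∃ x : α × β, t < |((univ.filter fun c =>
      (x.2, c) ∈ qs jB σ ∧ (c, x.1) ∈ qs jC σ).card : ℝ) -
        ∑ c, pe p jB x.2 c * pe p jC c x.1|) ≤
      (n : ℝ) ^ 2 * (2 * Real.exp (-l * t + 2 * l ^ 2 * n)) := by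
  refine fam p hp _ _ n (by positivity) ?_ fun x => ?_
  · rw [Fintype.card_prod, hα, hβ, sq]
  have h := two hB hC p (fun c => jB (x.2, c)) (fun c => jC (c, x.1)) univ l t n hp
    (inj1 jB hjB x.2) (inj2 jC hjC x.1)
    (fun c c' => hBC _ _) hl0 hl1 (by rw [card_univ, hγ])
  refine (pr_mono (wB p) (wB_nonneg p hp) _ _ fun σ hσ => ?_).trans h
  simp only [mem_qs, pe] at hσ
  exact hσ

end fields

private theorem or9 {X : Type} {κ : X → Type} [Fintype X] [DecidableEq X] [∀ i, Fintype (κ i)]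
    (w : ∀ i, κ i → ℝ) (h0 : ∀ i u, 0 ≤ w i u)
    (E E1 E2 E3 E4 E5 E6 E7 E8 E9 : (∀ i, κ i) → Prop) (q : ℝ)
    (h : ∀ σ, E σ → E1 σ ∨ E2 σ ∨ E3 σ ∨ E4 σ ∨ E5 σ ∨ E6 σ ∨ E7 σ ∨ E8 σ ∨ E9 σ)
    (h1 : Pr w E1 ≤ q) (h2 : Pr w E2 ≤ q) (h3 : Pr w E3 ≤ q) (h4 : Pr w E4 ≤ q)
    (h5 : Pr w E5 ≤ q) (h6 : Pr w E6 ≤ q) (h7 : Pr w E7 ≤ q) (h8 : Pr w E8 ≤ q)
    (h9 : Pr w E9 ≤ q) : Pr w E ≤ 9 * q := by
  have k := pr_mono w h0 _ _ h
  have k1 := pr_or w h0 E1 (fun σ => E2 σ ∨ E3 σ ∨ E4 σ ∨ E5 σ ∨ E6 σ ∨ E7 σ ∨ E8 σ ∨ E9 σ)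
  have k2 := pr_or w h0 E2 (fun σ => E3 σ ∨ E4 σ ∨ E5 σ ∨ E6 σ ∨ E7 σ ∨ E8 σ ∨ E9 σ)
  have k3 := pr_or w h0 E3 (fun σ => E4 σ ∨ E5 σ ∨ E6 σ ∨ E7 σ ∨ E8 σ ∨ E9 σ)
  have k4 := pr_or w h0 E4 (fun σ => E5 σ ∨ E6 σ ∨ E7 σ ∨ E8 σ ∨ E9 σ)
  have k5 := pr_or w h0 E5 (fun σ => E6 σ ∨ E7 σ ∨ E8 σ ∨ E9 σ)
  have k6 := pr_or w h0 E6 (fun σ => E7 σ ∨ E8 σ ∨ E9 σ)
  have k7 := pr_or w h0 E7 (fun σ => E8 σ ∨ E9 σ)
  have k8 := pr_or w h0 E8 E9
  linarith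

theorem hDEV : StDEV := by
  intro hB hC α β γ ι _ _ _ _ _ _ _ _ jA jB jC p n l t B U2 W2 U3 W3 _hn hα hβ hγ hjA hjB hjC
    _hAB hBC _hCA hp hl0 hl1
  have key := or9 (wB p) (wB_nonneg p hp)
    (fun σ => ¬ Dev t B (qs jA σ) (qs jB σ) (qs jC σ) (pe p jA) (pe p jB) (pe p jC)
      U2 W2 U3 W3) _ _ _ _ _ _ _ _ _ _ ?_
    (f_d1 hB hC jA p n l t hα hβ hjA hp hl0 hl1)
    (f_d2 hB hC jC p n l t hα hγ hjC hp hl0 hl1)
    (f_nC hB hC jC p n l t B U3 hα hβ hγ hjC hp hl0 hl1)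
    (f_nA hB hC jA p n l t B U2 hα hβ hγ hjA hp hl0 hl1)
    (f_wA hB hC jA p n l t W2 hα hβ hjA hp hl0 hl1)
    (f_wC hB hC jC p n l t W3 hα hγ hjC hp hl0 hl1)
    (f_cA hB hC jA p n l t hα hβ hjA hp hl0 hl1)
    (f_cC hB hC jC p n l t hα hγ hjC hp hl0 hl1)
    (f_cm hB hC jB jC p n l t hα hβ hγ hjB hjC hBC hp hl0 hl1)
  · refine key.trans (le_of_eq (by ring))
  · intro σ hσ
    by_contra hc
    simp only [not_or, not_exists, not_and, not_lt] at hc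
    obtain ⟨c1, c2, c3, c4, c5, c6, c7, c8, c9⟩ := hc
    exact hσ ⟨c1, c2, fun a b => c3 (a, b), fun a c => c4 (a, c), c5, c6,
      fun a a' h => c7 (a, a') h, fun a a' h => c8 (a, a') h, fun a b => c9 (a, b)⟩

end Pool.Agent.Helper2.IA57
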